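import Mathlib

/-!
# A pigeonhole over injections

If every injection of a finite set `W` of positions into `Fin U` contains a good vector at one of
finitely many patterns of `k + 1` positions, then for one pattern, and for one value of the first
coordinate, a positive proportion of all vectors is good.
-/

set_option autoImplicit false

namespace Pool.Agent.V8H34.PC

open Finset

open Classical in
/-- the number of injections with a given pattern and a given first coordinate -/
theorem fiber_le {W : Type} [Fintype W] [DecidableEq W] (k U : ℕ) (pos : Fin (k + 1) → W)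
    (hpos : Function.Injective pos) (G : (Fin (k + 1) → Fin U) → Prop) (v0 : Fin U)
    (X : Finset (W ↪ Fin U))
    (hX : ∀ u ∈ X, G (fun a => u (pos a)) ∧ u (pos 0) = v0) :
    X.card ≤ (univ.filter (fun v : Fin k → Fin U => G (Fin.cons v0 v))).card *
      U ^ (Fintype.card W - (k + 1)) := by
  set V := univ.filter (fun v : Fin k → Fin U => G (Fin.cons v0 v)) with hV
  have hcard : Fintype.card ({w : W // w ∉ univ.image pos} → Fin U) =
      U ^ (Fintype.card W - (k + 1)) := by
    rw [Fintype.card_fun, Fintype.card_fin]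
    congr 1
    rw [Fintype.card_subtype_compl]
    congr 1
    rw [Fintype.card_coe, card_image_of_injective _ hpos, card_univ, Fintype.card_fin]
  rw [← hcard, ← card_univ, ← card_product]
  apply card_le_card_of_injOn
    (fun u => ((fun i : Fin k => u (pos i.succ)), (fun w : {w : W // w ∉ univ.image pos} => u w.1)))
  · intro u hu
    rw [Finset.mem_coe] at hu
    obtain ⟨h1, h2⟩ := hX u hu
    rw [Finset.mem_coe, mem_product]
    refine ⟨?_, mem_univ _⟩
    rw [hV, mem_filter]
    refine ⟨mem_univ _, ?_⟩
    have : (fun a => u (pos a)) = (Fin.cons v0 (fun i : Fin k => u (pos i.succ)) :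
        Fin (k + 1) → Fin U) := by
      funext a
      refine Fin.cases ?_ (fun i => ?_) a
      · rw [Fin.cons_zero]; exact h2
      · rw [Fin.cons_succ]
    rw [← this]
    exact h1
  · intro u hu u' hu' h
    rw [Finset.mem_coe] at hu hu'
    simp only [Prod.mk.injEq] at h
    obtain ⟨h1, h2⟩ := h
    apply DFunLike.ext
    intro w
    by_cases hw : w ∈ univ.image pos
    · obtain ⟨a, -, rfl⟩ := mem_image.1 hw
      refine Fin.cases ?_ (fun i => ?_) a
      · rw [(hX u hu).2, (hX u' hu').2]
      · exact congrFun h1 i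
    · exact congrFun h2 ⟨w, hw⟩

open Classical in
theorem pigeon {W Pat : Type} [Fintype W] [DecidableEq W] [Fintype Pat] (k U : ℕ)
    (pos : Pat → Fin (k + 1) → W) (hpos : ∀ π, Function.Injective (pos π))
    (Good : Pat → (Fin (k + 1) → Fin U) → Prop)
    (h : ∀ u : W ↪ Fin U, ∃ π, Good π (fun a => u (pos π a)))
    (hU : 2 * Fintype.card W ≤ U) (hU0 : 0 < U) :
    ∃ (π : Pat) (v0 : Fin U), U ^ k ≤ 2 ^ Fintype.card W * Fintype.card Pat *
      (univ.filter (fun v : Fin k → Fin U => Good π (Fin.cons v0 v))).card := by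
  set R := Fintype.card W with hR
  have hX : U ^ R ≤ 2 ^ R * Fintype.card (W ↪ Fin U) := by
    rw [Fintype.card_embedding_eq, Fintype.card_fin, ← hR]
    calc U ^ R ≤ (2 * (U + 1 - R)) ^ R := Nat.pow_le_pow_left (by omega) _
      _ = 2 ^ R * (U + 1 - R) ^ R := by rw [mul_pow]
      _ ≤ 2 ^ R * U.descFactorial R := Nat.mul_le_mul_left _ (Nat.pow_sub_le_descFactorial _ _)
  choose φ hφ using h
  have hne : Nonempty Pat := by
    by_contra hne
    rw [not_nonempty_iff] at hne
    have h1 : IsEmpty (W ↪ Fin U) := ⟨fun u => hne.elim (φ u)⟩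
    rw [Fintype.card_eq_zero_iff.2 h1, mul_zero] at hX
    have : 0 < U ^ R := by positivity
    omega
  have hW : k + 1 ≤ R := by
    have := Fintype.card_le_of_injective _ (hpos hne.some)
    rwa [Fintype.card_fin] at this
  by_contra hcon
  push Not at hcon
  have hsum : (univ : Finset (W ↪ Fin U)).card = ∑ y ∈ (univ : Finset (Pat × Fin U)),
      (univ.filter (fun u : W ↪ Fin U => (φ u, u (pos (φ u) 0)) = y)).card :=
    card_eq_sum_card_fiberwise (fun _ _ => mem_univ _)
  have hle : ∀ y : Pat × Fin U,
      (univ.filter (fun u : W ↪ Fin U => (φ u, u (pos (φ u) 0)) = y)).card ≤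
      (univ.filter (fun v : Fin k → Fin U => Good y.1 (Fin.cons y.2 v))).card *
        U ^ (R - (k + 1)) := by
    rintro ⟨π, v0⟩
    apply fiber_le k U (pos π) (hpos π) (Good π) v0
    intro u hu
    rw [mem_filter] at hu
    obtain ⟨-, hu⟩ := hu
    simp only [Prod.mk.injEq] at hu
    obtain ⟨h1, h2⟩ := hu
    subst h1
    exact ⟨hφ u, h2⟩
  have hUpos : 0 < U ^ (R - (k + 1)) := by positivity
  have hlt : 2 ^ R * Fintype.card Pat * (univ : Finset (W ↪ Fin U)).card <
      Fintype.card Pat * U ^ R := by
    rw [hsum, Finset.mul_sum]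
    calc ∑ y ∈ (univ : Finset (Pat × Fin U)), 2 ^ R * Fintype.card Pat *
          (univ.filter (fun u : W ↪ Fin U => (φ u, u (pos (φ u) 0)) = y)).card
        < ∑ _y ∈ (univ : Finset (Pat × Fin U)), U ^ k * U ^ (R - (k + 1)) := by
          apply Finset.sum_lt_sum_of_nonempty
          · exact ⟨(hne.some, ⟨0, hU0⟩), mem_univ _⟩
          · intro y _
            calc 2 ^ R * Fintype.card Pat *
                  (univ.filter (fun u : W ↪ Fin U => (φ u, u (pos (φ u) 0)) = y)).card
                ≤ 2 ^ R * Fintype.card Pat *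
                  ((univ.filter (fun v : Fin k → Fin U => Good y.1 (Fin.cons y.2 v))).card *
                    U ^ (R - (k + 1))) := Nat.mul_le_mul_left _ (hle y)
              _ = 2 ^ R * Fintype.card Pat *
                  (univ.filter (fun v : Fin k → Fin U => Good y.1 (Fin.cons y.2 v))).card *
                    U ^ (R - (k + 1)) := by ring
              _ < U ^ k * U ^ (R - (k + 1)) := Nat.mul_lt_mul_of_pos_right (hcon y.1 y.2) hUpos
      _ = Fintype.card Pat * U ^ R := by
          rw [Finset.sum_const, card_univ, Fintype.card_prod, Fintype.card_fin, smul_eq_mul,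
            ← pow_add, mul_assoc, ← pow_succ']
          congr 2
          omega
  rw [card_univ] at hlt
  have h3 : Fintype.card Pat * U ^ R ≤ Fintype.card Pat * (2 ^ R * Fintype.card (W ↪ Fin U)) :=
    Nat.mul_le_mul_left _ hX
  have h4 : Fintype.card Pat * (2 ^ R * Fintype.card (W ↪ Fin U)) =
      2 ^ R * Fintype.card Pat * Fintype.card (W ↪ Fin U) := by ring
  omega

end Pool.Agent.V8H34.PC
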