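import Mathlib
import Pool.Agent.V8H34.PC.Pigeon
import Pool.Agent.Y827.RO.NarF
import Pool.Agent.Helper903.DHJ

/-!
# Perturbed Cunningham chains: the arithmetic part
-/

set_option autoImplicit false

namespace Pool.Agent.V8H34.PC

open Finset Filter
open Pool.Agent.Y827.GS Pool.Agent.Y827.RO
open Pool.Agent.Helper903.DHJ

/-- the density Hales-Jewett theorem for sets of words with at least `5 / 18` of all the words -/
theorem dhj_fin (k : ℕ) : ∃ n : ℕ, ∀ S : Finset (Fin n → Fin (k + 1)),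
    (((k + 1) ^ n : ℕ) : ℝ) ≤ (18 / 5) * (S.card : ℝ) →
    ∃ L : Combinatorics.Line (Fin (k + 1)) (Fin n), ∀ a, L a ∈ S := by
  classical
  obtain ⟨n, hn⟩ := ldhj (Fin (k + 1)) (5 / 18) (by norm_num)
  refine ⟨n, fun S hS => ?_⟩
  obtain ⟨L, hL⟩ := hn (S : Set (Fin n → Fin (k + 1))) (by
    have h1 : Pool.Agent.Helper903.DHJ.dens (S : Set (Fin n → Fin (k + 1))) = (S.card : ℝ) / ((k + 1) ^ n : ℕ) := by
      unfold Pool.Agent.Helper903.DHJ.dens avg ind
      rw [Finset.sum_indicator_eq_sum_filter]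
      simp
    rw [h1, le_div_iff₀ (by positivity)]
    linarith)
  exact ⟨L, fun a => by simpa using hL a⟩

/-- the time of a word -/
def tw {n k : ℕ} (m : Fin n → ℕ) (w : Fin n → Fin (k + 1)) : ℕ := ∑ j, (w j : ℕ) * m j

theorem tw_le {n k : ℕ} (m : Fin n → ℕ) (w : Fin n → Fin (k + 1)) : tw m w ≤ k * ∑ j, m j := by
  unfold tw
  rw [Finset.mul_sum]
  exact sum_le_sum fun j _ => Nat.mul_le_mul_right _ (by omega)

theorem tw_line {n k : ℕ} (m : Fin n → ℕ) (L : Combinatorics.Line (Fin (k + 1)) (Fin n))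
    (a : Fin (k + 1)) : tw m (L a) = tw m (L 0) +
      (a : ℕ) * ∑ j ∈ univ.filter (fun j => L.idxFun j = none), m j := by
  classical
  unfold tw
  rw [← sum_filter_add_sum_filter_not univ (fun j => L.idxFun j = none)
    (fun j => ((L a j : Fin (k + 1)) : ℕ) * m j),
    ← sum_filter_add_sum_filter_not univ (fun j => L.idxFun j = none)
    (fun j => ((L 0 j : Fin (k + 1)) : ℕ) * m j)]
  have h1 : ∑ j ∈ univ.filter (fun j => L.idxFun j = none), ((L a j : Fin (k + 1)) : ℕ) * m j =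
      (a : ℕ) * ∑ j ∈ univ.filter (fun j => L.idxFun j = none), m j := by
    rw [mul_sum]
    apply sum_congr rfl
    intro j hj
    rw [mem_filter] at hj
    rw [Combinatorics.Line.apply_none _ _ _ hj.2]
  have h2 : ∑ j ∈ univ.filter (fun j => L.idxFun j = none), ((L 0 j : Fin (k + 1)) : ℕ) * m j = 0 := by
    apply sum_eq_zero
    intro j hj
    rw [mem_filter] at hj
    rw [Combinatorics.Line.apply_none _ _ _ hj.2]
    simp
  have h3 : ∑ j ∈ univ.filter (fun j => ¬ L.idxFun j = none), ((L a j : Fin (k + 1)) : ℕ) * m j =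
      ∑ j ∈ univ.filter (fun j => ¬ L.idxFun j = none), ((L 0 j : Fin (k + 1)) : ℕ) * m j := by
    apply sum_congr rfl
    intro j hj
    rw [mem_filter] at hj
    obtain ⟨x, hx⟩ := Option.ne_none_iff_exists'.1 hj.2
    rw [Combinatorics.Line.apply_some hx, Combinatorics.Line.apply_some hx]
  rw [h1, h2, h3]
  ring

theorem line_inj {n k : ℕ} (L : Combinatorics.Line (Fin (k + 1)) (Fin n)) :
    Function.Injective (fun a => (L a : Fin n → Fin (k + 1))) := by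
  intro i i' hii
  obtain ⟨j, hj⟩ := L.proper
  have := congrFun hii j
  simp only at this
  rwa [Combinatorics.Line.apply_none _ _ _ hj, Combinatorics.Line.apply_none _ _ _ hj] at this

/-- the shift of the base point: the product of the primes of `Λ` that do not divide `b` -/
def sh (Λ : ℕ) (b : ℤ) : ℕ := ∏ p ∈ Λ.primeFactors.filter (fun p : ℕ => ¬ (p : ℤ) ∣ b), p

theorem sh_le {Λ : ℕ} (hΛ : 0 < Λ) (b : ℤ) : sh Λ b ≤ Λ := by
  unfold sh
  apply Nat.le_of_dvd hΛ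
  calc ∏ p ∈ Λ.primeFactors.filter (fun p : ℕ => ¬ (p : ℤ) ∣ b), p ∣ ∏ p ∈ Λ.primeFactors, p :=
        prod_dvd_prod_of_subset _ _ _ (filter_subset _ _)
    _ ∣ Λ := Nat.prod_primeFactors_dvd Λ

theorem sh_cop {Λ : ℕ} (h2 : 2 ∣ Λ) (hΛ : 0 < Λ) {b : ℤ} (hb : Odd b) (t : ℕ) (v : ℤ) :
    IsCoprime (2 ^ t * (Λ : ℤ)) (2 ^ t * (sh Λ b : ℤ) - b + Λ * v) := by
  rw [Int.isCoprime_iff_gcd_eq_one]
  by_contra hg
  obtain ⟨p, hp, hpd⟩ := Nat.exists_prime_and_dvd hg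
  have hpz : (p : ℤ) ∣ (Int.gcd (2 ^ t * (Λ : ℤ)) (2 ^ t * (sh Λ b : ℤ) - b + Λ * v) : ℤ) := by
    exact_mod_cast hpd
  have h3 : (p : ℤ) ∣ 2 ^ t * (Λ : ℤ) := hpz.trans (Int.gcd_dvd_left ..)
  have h4 : (p : ℤ) ∣ 2 ^ t * (sh Λ b : ℤ) - b + Λ * v := hpz.trans (Int.gcd_dvd_right ..)
  have hpp : Prime (p : ℤ) := Nat.prime_iff_prime_int.1 hp
  have hpΛ : (p : ℤ) ∣ (Λ : ℤ) := by
    rcases hpp.dvd_or_dvd h3 with h | h
    · exact (hpp.dvd_of_dvd_pow h).trans (by exact_mod_cast h2)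
    · exact h
  have h5 : (p : ℤ) ∣ 2 ^ t * (sh Λ b : ℤ) - b := (dvd_add_left (Dvd.dvd.mul_right hpΛ v)).1 h4
  have hpm : p ∈ Λ.primeFactors := by
    rw [Nat.mem_primeFactors]
    exact ⟨hp, by exact_mod_cast hpΛ, hΛ.ne'⟩
  by_cases hpb : (p : ℤ) ∣ b
  · have h6 : (p : ℤ) ∣ 2 ^ t * (sh Λ b : ℤ) := (dvd_sub_left hpb).1 h5
    rcases hpp.dvd_or_dvd h6 with h | h
    · have h7 : (p : ℤ) ∣ 2 := hpp.dvd_of_dvd_pow h
      have h8 : p ∣ 2 := by exact_mod_cast h7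
      have h9 : p = 2 := (Nat.prime_dvd_prime_iff_eq hp Nat.prime_two).1 h8
      subst h9
      rcases hb with ⟨x, hx⟩
      obtain ⟨y, hy⟩ := hpb
      push_cast at hy
      omega
    · have h7 : p ∣ sh Λ b := by exact_mod_cast h
      unfold sh at h7
      obtain ⟨q, hq, hpq⟩ := (Nat.prime_iff.1 hp).exists_mem_finset_dvd h7
      rw [mem_filter, Nat.mem_primeFactors] at hq
      have h8 : p = q := (Nat.prime_dvd_prime_iff_eq hp hq.1.1).1 hpq
      subst h8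
      exact hq.2 hpb
  · have h7 : p ∣ sh Λ b := by
      unfold sh
      exact dvd_prod_of_mem _ (mem_filter.2 ⟨hpm, hpb⟩)
    have h8 : (p : ℤ) ∣ 2 ^ t * (sh Λ b : ℤ) := Dvd.dvd.mul_left (by exact_mod_cast h7) _
    exact hpb ((dvd_sub_right h8).1 h5)

end Pool.Agent.V8H34.PC
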