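import Mathlib
import Pool.Agent.V8H34.PC.Core

/-!
# Perturbed Cunningham chains: assembly
-/

set_option autoImplicit false

namespace Pool.Agent.V8H34.PC

open Finset Filter
open Pool.Agent.Y827.GS Pool.Agent.Y827.RO
open Pool.Agent.Helper903.DHJ

/-- the value of a form of time `t` with the parameter `v` -/
def vl (Λ : ℕ) (b : ℤ) (t v x : ℕ) : ℤ := 2 ^ t * (Λ * x + sh Λ b) - b + Λ * v

/-- patterns: the words of a line, the choice of the forms, and the active coordinates -/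
def Pat (k n K : ℕ) (m : Fin n → ℕ) : Type :=
  {x : (Fin (k + 1) → (Fin n → Fin (k + 1))) × (Fin (k + 1) → Fin K) × Finset (Fin n) //
    Function.Injective x.1 ∧ x.2.2.Nonempty ∧
      ∀ a, tw m (x.1 a) = tw m (x.1 0) + (a : ℕ) * ∑ j ∈ x.2.2, m j}

noncomputable instance (k n K : ℕ) (m : Fin n → ℕ) : Fintype (Pat k n K m) := by
  classical
  unfold Pat
  infer_instance

/-- the positions of a pattern -/
def ps {k n K : ℕ} {m : Fin n → ℕ} (π : Pat k n K m) (a : Fin (k + 1)) :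
    (Fin n → Fin (k + 1)) × Fin K := (π.1.1 a, π.1.2.1 a)

theorem ps_inj {k n K : ℕ} {m : Fin n → ℕ} (π : Pat k n K m) : Function.Injective (ps π) := by
  intro a a' h
  exact π.2.1 (congrArg Prod.fst h)

/-- the arguments at which all forms of a pattern are prime -/
def XX {k n K : ℕ} {m : Fin n → ℕ} (Λ : ℕ) (b : ℤ) (N U : ℕ) (π : Pat k n K m)
    (v : Fin (k + 1) → Fin U) : Finset ℕ :=
  (Icc 1 N).filter (fun x => ∀ a, (vl Λ b (tw m (π.1.1 a)) (v a) x).toNat.Prime)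

/-- **every injective choice of parameters contains a good pattern** -/
theorem exists_good {k n K : ℕ} (m : Fin n → ℕ) (Λ N U : ℕ) (b : ℤ) (hb : Odd b)
    (hdhj : ∀ S : Finset (Fin n → Fin (k + 1)),
      (((k + 1) ^ n : ℕ) : ℝ) ≤ (18 / 5) * (S.card : ℝ) →
      ∃ L : Combinatorics.Line (Fin (k + 1)) (Fin n), ∀ a, L a ∈ S)
    (hΛ : 24 ≤ Λ) (h2 : 2 ∣ Λ)
    (hsm : ∀ p : ℕ, p.Prime → p ≤ (k + 1) ^ n * K → p ∣ Λ)
    (hN : ∀ H : Fin ((k + 1) ^ n) → Fin K → ℤ × ℤ,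
      Function.Injective (fun x : Fin ((k + 1) ^ n) × Fin K => H x.1 x.2) →
      (∀ g i, Adf (2 ^ (k * ∑ j, m j) * Λ) N (H g i)) →
      (∀ p : ℕ, p.Prime → p ≤ (k + 1) ^ n * K → ∃ r : ℤ, ∀ g i,
        ¬ (p : ℤ) ∣ (H g i).1 * r + (H g i).2) →
      ∃ (S : Finset (Fin ((k + 1) ^ n))) (c : Fin ((k + 1) ^ n) → Fin K),
        (((k + 1) ^ n : ℕ) : ℝ) ≤ (18 / 5) * (S.card : ℝ) ∧
        (N : ℝ) / (Real.log N) ^ ((k + 1) ^ n * K + 2) ≤
          (cntN (S.image (fun g => H g (c g))) N : ℝ))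
    (hsize : (2 ^ (k * ∑ j, m j) * Λ : ℕ) + |b| + Λ * U ≤ (N : ℤ))
    (u : (Fin n → Fin (k + 1)) × Fin K ↪ Fin U) :
    ∃ π : Pat k n K m, (N : ℝ) / (Real.log N) ^ ((k + 1) ^ n * K + 2) ≤
      ((XX Λ b N U π (fun a => u (ps π a))).card : ℝ) := by
  classical
  set e : (Fin n → Fin (k + 1)) ≃ Fin ((k + 1) ^ n) := finFunctionFinEquiv with he
  have hΛ0 : 0 < Λ := by omega
  have hΛz : (0 : ℤ) < Λ := by exact_mod_cast hΛ0
  set H : Fin ((k + 1) ^ n) → Fin K → ℤ × ℤ := fun g i =>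
    (2 ^ tw m (e.symm g) * (Λ : ℤ),
      2 ^ tw m (e.symm g) * (sh Λ b : ℤ) - b + Λ * ((u (e.symm g, i) : ℕ) : ℤ)) with hH
  have hcop : ∀ g i, IsCoprime (H g i).1 (H g i).2 := fun g i => sh_cop h2 hΛ0 hb _ _
  obtain ⟨S, c, hS, hcnt⟩ := hN H
    (by
      rintro ⟨g, i⟩ ⟨g', i'⟩ h
      simp only [hH, Prod.mk.injEq] at h
      obtain ⟨h1, h3⟩ := h
      have h4 : (2 : ℤ) ^ tw m (e.symm g) = 2 ^ tw m (e.symm g') :=
        mul_right_cancel₀ hΛz.ne' h1
      rw [h4] at h3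
      have h5 : (Λ : ℤ) * ((u (e.symm g, i) : ℕ) : ℤ) = Λ * ((u (e.symm g', i') : ℕ) : ℤ) := by
        linarith
      have h6 : ((u (e.symm g, i) : ℕ) : ℤ) = ((u (e.symm g', i') : ℕ) : ℤ) :=
        mul_left_cancel₀ hΛz.ne' h5
      have h7 : u (e.symm g, i) = u (e.symm g', i') := Fin.ext (by exact_mod_cast h6)
      have h8 := u.injective h7
      simp only [Prod.mk.injEq] at h8
      exact Prod.ext (e.symm.injective h8.1) h8.2)
    (by
      intro g i
      have hP : (2 : ℤ) ^ tw m (e.symm g) ≤ 2 ^ (k * ∑ j, m j) :=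
        pow_le_pow_right₀ (by norm_num) (tw_le m _)
      have hPpos : (0 : ℤ) < 2 ^ tw m (e.symm g) := by positivity
      have hP1 : (1 : ℤ) ≤ 2 ^ tw m (e.symm g) := one_le_pow₀ (by norm_num)
      have hsh : (sh Λ b : ℤ) ≤ Λ := by exact_mod_cast sh_le hΛ0 b
      have hsh0 : (0 : ℤ) ≤ sh Λ b := by positivity
      have hu : ((u (e.symm g, i) : ℕ) : ℤ) ≤ U := by
        exact_mod_cast (u (e.symm g, i)).2.le
      have hu0 : (0 : ℤ) ≤ ((u (e.symm g, i) : ℕ) : ℤ) := by positivity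
      have h3 : (2 : ℤ) ^ tw m (e.symm g) * (sh Λ b : ℤ) ≤ 2 ^ (k * ∑ j, m j) * Λ :=
        mul_le_mul hP hsh hsh0 (by positivity)
      have h4 : (0 : ℤ) ≤ 2 ^ tw m (e.symm g) * (sh Λ b : ℤ) := by positivity
      have h5 : (Λ : ℤ) * ((u (e.symm g, i) : ℕ) : ℤ) ≤ Λ * U := by gcongr
      have h6 : (0 : ℤ) ≤ (Λ : ℤ) * ((u (e.symm g, i) : ℕ) : ℤ) := by positivity
      push_cast at hsize
      have habs : |2 ^ tw m (e.symm g) * (sh Λ b : ℤ) - b +
          Λ * ((u (e.symm g, i) : ℕ) : ℤ)| ≤ N := by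
        have h7 := neg_abs_le b
        have h8 := le_abs_self b
        rw [abs_le]
        constructor <;> linarith
      refine ⟨?_, ?_, habs, hcop g i, ?_⟩
      · simp only [hH]
        positivity
      · simp only [hH]
        rw [abs_of_pos (by positivity)]
        push_cast
        gcongr
      · intro t ht1 ht2
        simp only [hH]
        push_cast
        have h7 : (24 : ℝ) ≤ 2 ^ tw m (e.symm g) * (Λ : ℝ) := by
          have h8 : (1 : ℝ) ≤ 2 ^ tw m (e.symm g) := one_le_pow₀ (by norm_num)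
          have h9 : (24 : ℝ) ≤ (Λ : ℝ) := by exact_mod_cast hΛ
          nlinarith
        have h8 : (-(N : ℝ)) ≤ 2 ^ tw m (e.symm g) * (sh Λ b : ℝ) - b +
            Λ * ((u (e.symm g, i) : ℕ) : ℝ) := by
          have := (abs_le.1 habs).1
          exact_mod_cast this
        have h9 : (0 : ℝ) ≤ N := Nat.cast_nonneg _
        have h10 : 24 * ((N : ℝ) / 16) ≤ 2 ^ tw m (e.symm g) * (Λ : ℝ) * t := by
          apply mul_le_mul h7 ht1 (by positivity) (by positivity)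
        linarith)
    (by
      intro p hp hpk
      refine ⟨0, fun g i hd => ?_⟩
      rw [mul_zero, zero_add] at hd
      have h3 : (p : ℤ) ∣ (H g i).1 := by
        simp only [hH]
        exact Dvd.dvd.mul_left (by exact_mod_cast hsm p hp hpk) _
      have h4 : IsUnit (p : ℤ) := (hcop g i).isUnit_of_dvd' h3 hd
      exact (Nat.prime_iff_prime_int.1 hp).not_isUnit h4)
  obtain ⟨L, hL⟩ := hdhj (S.map e.symm.toEmbedding) (by rw [card_map]; exact hS)
  have hLS : ∀ a, e (L a) ∈ S := by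
    intro a
    have := hL a
    rw [Finset.mem_map] at this
    obtain ⟨g, hg, hga⟩ := this
    have h3 : e (L a) = g := by
      rw [← hga]
      simp
    rw [h3]; exact hg
  refine ⟨⟨(fun a => L a, fun a => c (e (L a)), univ.filter (fun j => L.idxFun j = none)),
    line_inj L, ?_, fun a => tw_line m L a⟩, hcnt.trans ?_⟩
  · obtain ⟨j, hj⟩ := L.proper
    exact ⟨j, by simpa using hj⟩
  · rw [Nat.cast_le]
    unfold cntN XX
    apply card_le_card
    intro x hx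
    rw [mem_filter] at hx ⊢
    refine ⟨hx.1, fun a => ?_⟩
    have h3 := hx.2 (H (e (L a)) (c (e (L a)))) (mem_image.2 ⟨e (L a), hLS a, rfl⟩)
    simp only [hH, Equiv.symm_apply_apply] at h3
    convert h3 using 2
    unfold vl ps
    simp only
    ring_nf

end Pool.Agent.V8H34.PC
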