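import Mathlib
import Pool.Agent.V8H34.PC.Main

/-!
# Perturbed Cunningham chains: the counting theorem
-/

set_option autoImplicit false

namespace Pool.Agent.V8H34.PC

open Finset Filter
open Pool.Agent.Y827.GS Pool.Agent.Y827.RO
open Pool.Agent.Helper903.DHJ

/-- the primes `p` up to `N` for which the perturbed chain of step `d` and length `k` is prime -/
noncomputable def chainSet (k N d : ℕ) (b : ℤ) (c : Fin k → ℤ) : Finset ℕ :=
  (Icc 1 N).filter (fun p : ℕ => p.Prime ∧ ∀ i : Fin k,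
    (2 ^ (((i : ℕ) + 1) * d) * (p : ℤ) + (2 ^ (((i : ℕ) + 1) * d) - 1) * b + c i).toNat.Prime)

theorem vl_toNat_inj {Λ : ℕ} (hΛ : 0 < Λ) (b : ℤ) (t v x y : ℕ)
    (hx : (vl Λ b t v x).toNat.Prime) (h : (vl Λ b t v x).toNat = (vl Λ b t v y).toNat) :
    x = y := by
  have h1 : 0 < (vl Λ b t v x).toNat := hx.pos
  have h2 : 0 < (vl Λ b t v y).toNat := h ▸ h1
  have h3 : vl Λ b t v x = vl Λ b t v y := by omega
  unfold vl at h3
  have h4 : (2 : ℤ) ^ t * (Λ * x + sh Λ b) = 2 ^ t * (Λ * y + sh Λ b) := by linarith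
  have h5 := mul_left_cancel₀ (by positivity) h4
  have h6 : (Λ : ℤ) * x = Λ * y := by linarith
  have h7 := mul_left_cancel₀ (by exact_mod_cast hΛ.ne') h6
  exact_mod_cast h7

/-- from the arguments of a pattern to the primes of a perturbed chain -/
theorem XX_le {k n K : ℕ} {m : Fin n → ℕ} (Λ : ℕ) (hΛ : 0 < Λ) (b : ℤ) (N' N U : ℕ)
    (π : Pat k n K m) (v0 : Fin U) (v : Fin k → Fin U)
    (hN : (2 : ℤ) ^ (k * ∑ j, m j) * (Λ * N' + Λ) + |b| + Λ * U ≤ N) :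
    (XX Λ b N' U π (Fin.cons v0 v)).card ≤
      (chainSet k N (∑ j ∈ π.1.2.2, m j) b
        (fun i => Λ * (((v i : ℕ) : ℤ) -
          2 ^ (((i : ℕ) + 1) * ∑ j ∈ π.1.2.2, m j) * ((v0 : ℕ) : ℤ)))).card := by
  have hΛz : (0 : ℤ) < Λ := by exact_mod_cast hΛ
  apply card_le_card_of_injOn (fun x => (vl Λ b (tw m (π.1.1 0)) v0 x).toNat)
  · intro x hx
    rw [Finset.mem_coe] at hx
    unfold XX at hx
    rw [mem_filter, mem_Icc] at hx
    obtain ⟨⟨hx1, hx2⟩, hx⟩ := hx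
    have h0 := hx 0
    rw [Fin.cons_zero] at h0
    rw [Finset.mem_coe]
    unfold chainSet
    rw [mem_filter, mem_Icc]
    have hpos : 0 < (vl Λ b (tw m (π.1.1 0)) v0 x).toNat := h0.pos
    have hcast : (((vl Λ b (tw m (π.1.1 0)) v0 x).toNat : ℕ) : ℤ) =
        vl Λ b (tw m (π.1.1 0)) v0 x := Int.toNat_of_nonneg (by omega)
    refine ⟨⟨hpos, ?_⟩, h0, fun i => ?_⟩
    · have h1 : vl Λ b (tw m (π.1.1 0)) v0 x ≤ N := by
        refine le_trans ?_ hN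
        unfold vl
        have h2 : (2 : ℤ) ^ tw m (π.1.1 0) ≤ 2 ^ (k * ∑ j, m j) :=
          pow_le_pow_right₀ (by norm_num) (tw_le m _)
        have h3 : (Λ : ℤ) * x + sh Λ b ≤ Λ * N' + Λ := by
          have h4 : (sh Λ b : ℤ) ≤ Λ := by exact_mod_cast sh_le hΛ b
          have h5 : (Λ : ℤ) * x ≤ Λ * N' :=
            mul_le_mul_of_nonneg_left (by exact_mod_cast hx2) hΛz.le
          linarith
        have h4 : (2 : ℤ) ^ tw m (π.1.1 0) * (Λ * x + sh Λ b) ≤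
            2 ^ (k * ∑ j, m j) * (Λ * N' + Λ) :=
          mul_le_mul h2 h3 (by positivity) (by positivity)
        have h5 : (Λ : ℤ) * (v0 : ℕ) ≤ Λ * U :=
          mul_le_mul_of_nonneg_left (by exact_mod_cast v0.2.le) hΛz.le
        have h6 := neg_abs_le b
        linarith
      show (vl Λ b (tw m (π.1.1 0)) v0 x).toNat ≤ N
      omega
    · have h1 := hx i.succ
      rw [Fin.cons_succ, π.2.2.2 i.succ, Fin.val_succ] at h1
      rw [hcast]
      convert h1 using 2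
      unfold vl
      rw [pow_add]
      ring
  · intro x hx y hy h
    rw [Finset.mem_coe] at hx
    unfold XX at hx
    rw [mem_filter] at hx
    have h0 := hx.2 0
    rw [Fin.cons_zero] at h0
    exact vl_toNat_inj hΛ b _ _ x y h0 h

theorem log_step {Q N R : ℕ} (hQ : 1 ≤ Q) (hN : 2 * Q ≤ N) (hl : 2 * (Q : ℝ) ≤ Real.log N)
    (hN' : 3 ≤ N / Q) :
    (N : ℝ) / (Real.log N) ^ (R + 1) ≤ ((N / Q : ℕ) : ℝ) / (Real.log ((N / Q : ℕ) : ℝ)) ^ R := by
  have hQ0 : (0 : ℝ) < Q := by exact_mod_cast hQ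
  have h1 : (N : ℝ) / (2 * Q) ≤ ((N / Q : ℕ) : ℝ) := by
    rw [div_le_iff₀ (by positivity)]
    have h2 : N < Q * (N / Q) + Q := by
      have := Nat.div_add_mod N Q
      have := Nat.mod_lt N hQ
      omega
    have h3 : Q ≤ Q * (N / Q) := Nat.le_mul_of_pos_right _ (by omega)
    have h4 : N ≤ (N / Q) * (2 * Q) := by
      have : (N / Q) * (2 * Q) = 2 * (Q * (N / Q)) := by ring
      omega
    exact_mod_cast h4
  have h3 : ((N / Q : ℕ) : ℝ) ≤ N := by exact_mod_cast Nat.div_le_self N Q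
  have h4 : (3 : ℝ) ≤ ((N / Q : ℕ) : ℝ) := by exact_mod_cast hN'
  have h5 : 0 < Real.log ((N / Q : ℕ) : ℝ) := Real.log_pos (by linarith)
  have h6 : Real.log ((N / Q : ℕ) : ℝ) ≤ Real.log N := Real.log_le_log (by linarith) h3
  have h7 : 0 < Real.log N := h5.trans_le h6
  calc (N : ℝ) / (Real.log N) ^ (R + 1) = (N : ℝ) / Real.log N / (Real.log N) ^ R := by
        rw [pow_succ', div_div]
    _ ≤ (N : ℝ) / (2 * Q) / (Real.log N) ^ R := by
        gcongr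
    _ ≤ ((N / Q : ℕ) : ℝ) / (Real.log ((N / Q : ℕ) : ℝ)) ^ R := by
        gcongr

/-- **perturbed Cunningham chains of every length** -/
theorem chains (k : ℕ) : ∃ n : ℕ, ∀ M : ℕ, 1 ≤ M → ∀ m : Fin n → ℕ,
    ∃ (C B : ℕ) (δ : ℝ), 0 < δ ∧ ∀ᶠ N : ℕ in atTop, ∀ H : ℕ, C ≤ H → C * H ≤ N →
    ∀ b : ℤ, Odd b → C * |b| ≤ N →
    ∃ J : Finset (Fin n), J.Nonempty ∧ ∃ 𝒞 : Finset (Fin k → ℤ),
      δ * (H : ℝ) ^ k ≤ (𝒞.card : ℝ) ∧ ∀ c ∈ 𝒞, (∀ i, |c i| ≤ H ∧ (M : ℤ) ∣ c i) ∧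
        (N : ℝ) / (Real.log N) ^ B ≤ ((chainSet k N (∑ j ∈ J, m j) b c).card : ℝ) := by
  classical
  obtain ⟨n, hdhj⟩ := dhj_fin k
  refine ⟨n, fun M hM m => ?_⟩
  obtain ⟨T, hT⟩ : ∃ T, T = (k + 1) ^ n := ⟨_, rfl⟩
  obtain ⟨K, hK, hlam⟩ := lamRD T
  have hT1 : 1 ≤ T := by rw [hT]; exact Nat.one_le_pow _ _ (by omega)
  obtain ⟨R, hR⟩ : ∃ R, R = T * K := ⟨_, rfl⟩
  obtain ⟨Λ, hMΛ, hΛfac, hΛpos⟩ : ∃ Λ : ℕ, M ∣ Λ ∧ (R + 24).factorial ∣ Λ ∧ 0 < Λ :=
    ⟨M * (R + 24).factorial, Dvd.intro _ rfl, Dvd.intro_left _ rfl,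
      Nat.mul_pos hM (Nat.factorial_pos _)⟩
  have hΛ24 : 24 ≤ Λ := by
    calc 24 ≤ R + 24 := by omega
      _ ≤ (R + 24).factorial := Nat.self_le_factorial _
      _ ≤ Λ := Nat.le_of_dvd hΛpos hΛfac
  have hΛ2 : 2 ∣ Λ := (Nat.dvd_factorial (by norm_num) (by omega)).trans hΛfac
  have hsm : ∀ p : ℕ, p.Prime → p ≤ T * K → p ∣ Λ := fun p hp hpk =>
    (Nat.dvd_factorial hp.pos (by omega)).trans hΛfac
  obtain ⟨P, hP⟩ : ∃ P : ℕ, P = 2 ^ (k * ∑ j, m j) := ⟨_, rfl⟩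
  have hPpos : 0 < P := by rw [hP]; positivity
  have hlamA := hlam hT1 (P * Λ)
  obtain ⟨Q, hQ⟩ : ∃ Q : ℕ, Q = 8 * P * Λ := ⟨_, rfl⟩
  have hQpos : 0 < Q := by rw [hQ]; exact Nat.mul_pos (Nat.mul_pos (by norm_num) hPpos) hΛpos
  have hcardW : Fintype.card ((Fin n → Fin (k + 1)) × Fin K) = R := by
    rw [Fintype.card_prod, Fintype.card_fun, Fintype.card_fin, Fintype.card_fin,
      Fintype.card_fin, hR, hT]
  obtain ⟨L, hL⟩ : ∃ L : ℕ, L = Fintype.card (Pat k n K m) + 1 := ⟨_, rfl⟩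
  have hLpos : 0 < L := by omega
  refine ⟨4 * Q + P * Λ * (2 * R + 2), R + 3, (1 / (2 * P * Λ : ℝ)) ^ k / (2 ^ R * L), by
    positivity, ?_⟩
  have hdiv : Tendsto (fun N : ℕ => N / Q) atTop atTop := Nat.tendsto_div_const_atTop hQpos.ne'
  have hlog : ∀ᶠ N : ℕ in atTop, 2 * (Q : ℝ) ≤ Real.log N :=
    (Real.tendsto_log_atTop.comp tendsto_natCast_atTop_atTop).eventually_ge_atTop _
  filter_upwards [hdiv.eventually hlamA, hlog, hdiv.eventually_ge_atTop 3,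
    eventually_ge_atTop (8 * Q * (P * Λ + 1))] with N hlamN hlogN hN3 hNbig H hCH hHN b hb hbN
  obtain ⟨N', hN'⟩ : ∃ N', N' = N / Q := ⟨_, rfl⟩
  obtain ⟨U, hU⟩ : ∃ U, U = H / (P * Λ) := ⟨_, rfl⟩
  rw [← hN'] at hlamN hN3
  have hPΛ : 0 < P * Λ := Nat.mul_pos hPpos hΛpos
  -- sizes
  have hHbig : P * Λ * (2 * R + 2) ≤ H := le_trans (by omega) hCH
  have hU2R : 2 * R + 2 ≤ U := by
    rw [hU, Nat.le_div_iff_mul_le hPΛ]
    calc (2 * R + 2) * (P * Λ) = P * Λ * (2 * R + 2) := by ring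
      _ ≤ H := hHbig
  have hUH : P * Λ * U ≤ H := by rw [hU]; exact Nat.mul_div_le H (P * Λ)
  have hΛU : Λ * U ≤ H := by
    calc Λ * U ≤ P * Λ * U := by
          apply Nat.mul_le_mul_right
          exact Nat.le_mul_of_pos_left _ hPpos
      _ ≤ H := hUH
  have h4QH : 4 * Q * H ≤ N := le_trans (Nat.mul_le_mul_right _ (by omega)) hHN
  have h4Qb : 4 * (Q : ℤ) * |b| ≤ N := by
    refine le_trans (mul_le_mul_of_nonneg_right ?_ (abs_nonneg b)) hbN
    push_cast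
    have : (0 : ℤ) ≤ P * Λ * (2 * R + 2) := by positivity
    linarith
  have hNdiv : N < Q * N' + Q := by
    rw [hN']
    have := Nat.div_add_mod N Q
    have := Nat.mod_lt N hQpos
    omega
  have hNdiv2 : Q * N' ≤ N := by rw [hN']; exact Nat.mul_div_le N Q
  have hsize : ((P * Λ : ℕ) : ℤ) + |b| + Λ * U ≤ (N' : ℤ) := by
    have h1 : 4 * (Q : ℤ) * ((P * Λ : ℕ) + |b| + Λ * U) ≤ 4 * Q * N' := by
      have e1 : (8 * Q * (P * Λ + 1) : ℤ) ≤ N := by exact_mod_cast hNbig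
      have e2 : (4 * Q * (Λ * U) : ℤ) ≤ N := by
        have : 4 * Q * (Λ * U) ≤ N := le_trans (Nat.mul_le_mul_left _ hΛU) h4QH
        exact_mod_cast this
      have e3 : (N : ℤ) < Q * N' + Q := by exact_mod_cast hNdiv
      have e4 : (0 : ℤ) ≤ Q * (P * Λ) := by positivity
      push_cast
      nlinarith [e1, e2, e3, h4Qb, e4]
    exact le_of_mul_le_mul_left h1 (by positivity)
  have hbound : (2 : ℤ) ^ (k * ∑ j, m j) * (Λ * N' + Λ) + |b| + Λ * U ≤ N := by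
    have e0 : ((2 : ℤ) ^ (k * ∑ j, m j)) = (P : ℤ) := by rw [hP]; push_cast; rfl
    rw [e0]
    have e1 : (8 * Q * (P * Λ + 1) : ℤ) ≤ N := by exact_mod_cast hNbig
    have e2 : (4 * Q * (Λ * U) : ℤ) ≤ N := by
      have : 4 * Q * (Λ * U) ≤ N := le_trans (Nat.mul_le_mul_left _ hΛU) h4QH
      exact_mod_cast this
    have e3 : (Q : ℤ) * N' ≤ N := by exact_mod_cast hNdiv2
    have e5 : (Q : ℤ) = 8 * (P * Λ) := by rw [hQ]; push_cast; ring
    have e6 : (1 : ℤ) ≤ Q := by exact_mod_cast hQpos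
    have e7 : (0 : ℤ) ≤ |b| := abs_nonneg b
    have e8 : (0 : ℤ) ≤ (Λ : ℤ) * U := by positivity
    have e9 : (0 : ℤ) ≤ (P : ℤ) * Λ := by positivity
    have f1 : |b| ≤ Q * |b| := le_mul_of_one_le_left e7 e6
    have f2 : (Λ : ℤ) * U ≤ Q * (Λ * U) := le_mul_of_one_le_left e8 e6
    have f3 : (P : ℤ) * Λ ≤ Q * (P * Λ) := le_mul_of_one_le_left e9 e6
    have f4 : 8 * ((P : ℤ) * (Λ * N' )) ≤ N := by
      calc 8 * ((P : ℤ) * (Λ * N' )) = Q * N' := by rw [e5]; ring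
        _ ≤ N := e3
    have f5 : 4 * |b| ≤ N := by linarith [h4Qb, f1]
    have f6 : 4 * ((Λ : ℤ) * U) ≤ N := by linarith [e2, f2]
    have f7 : 8 * ((P : ℤ) * Λ) ≤ N := by linarith [e1, f3, e6]
    linarith [f4, f5, f6, f7]
  -- the pigeonhole
  have hgood : ∀ u : (Fin n → Fin (k + 1)) × Fin K ↪ Fin U, ∃ π : Pat k n K m,
      (N' : ℝ) / (Real.log N') ^ (R + 2) ≤ ((XX Λ b N' U π (fun a => u (ps π a))).card : ℝ) :=
    fun u => by
      subst hT hR hP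
      exact exists_good m Λ N' U b hb hdhj hΛ24 hΛ2 hsm hlamN hsize u
  obtain ⟨π, v0, hπ⟩ := pigeon (W := (Fin n → Fin (k + 1)) × Fin K) (Pat := Pat k n K m) k U (fun π => ps π)
    (fun π => ps_inj π)
    (fun π v => (N' : ℝ) / (Real.log N') ^ (R + 2) ≤ ((XX Λ b N' U π v).card : ℝ))
    hgood (by rw [hcardW]; omega) (by omega)
  rw [hcardW] at hπ
  obtain ⟨V, hV⟩ : ∃ V, V = univ.filter (fun v : Fin k → Fin U =>
    (N' : ℝ) / (Real.log N') ^ (R + 2) ≤ ((XX Λ b N' U π (Fin.cons v0 v)).card : ℝ)) := ⟨_, rfl⟩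
  rw [← hV] at hπ
  obtain ⟨d, hd⟩ : ∃ d : ℕ, d = ∑ j ∈ π.1.2.2, m j := ⟨_, rfl⟩
  refine ⟨π.1.2.2, π.2.2.1, ?_⟩
  rw [← hd]
  refine ⟨V.image (fun v => fun i : Fin k =>
    (Λ : ℤ) * (((v i : ℕ) : ℤ) - 2 ^ (((i : ℕ) + 1) * d) * ((v0 : ℕ) : ℤ))), ?_, ?_⟩
  · rw [card_image_of_injective]
    · have h1 : (U : ℝ) ^ k ≤ 2 ^ R * L * (V.card : ℝ) := by
        calc (U : ℝ) ^ k ≤ ((2 ^ R * Fintype.card (Pat k n K m) * V.card : ℕ) : ℝ) := by
              exact_mod_cast hπ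
          _ ≤ 2 ^ R * L * (V.card : ℝ) := by
              rw [hL]
              push_cast
              have : (0 : ℝ) ≤ 2 ^ R * (V.card : ℝ) := by positivity
              nlinarith
      have h2 : (H : ℝ) / (2 * P * Λ) ≤ U := by
        rw [div_le_iff₀ (by positivity)]
        have h3 : H < P * Λ * U + P * Λ := by
          rw [hU]
          have := Nat.div_add_mod H (P * Λ)
          have := Nat.mod_lt H hPΛ
          omega
        have h4 : P * Λ ≤ P * Λ * U := Nat.le_mul_of_pos_right _ (by omega)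
        have h5 : H ≤ U * (2 * P * Λ) := by
          have : U * (2 * P * Λ) = 2 * (P * Λ * U) := by ring
          omega
        exact_mod_cast h5
      have h3 : (1 / (2 * P * Λ : ℝ)) ^ k / (2 ^ R * L) * (H : ℝ) ^ k =
          ((H : ℝ) / (2 * P * Λ)) ^ k / (2 ^ R * L) := by
        rw [div_pow, div_pow, one_pow]
        ring
      rw [h3, div_le_iff₀ (by positivity)]
      calc ((H : ℝ) / (2 * P * Λ)) ^ k ≤ (U : ℝ) ^ k := by gcongr
        _ ≤ 2 ^ R * L * (V.card : ℝ) := h1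
        _ = (V.card : ℝ) * (2 ^ R * L) := by ring
    · intro v v' h
      funext i
      have h1 := congrFun h i
      simp only at h1
      have h2 := mul_left_cancel₀ (by exact_mod_cast hΛpos.ne') h1
      have h3 : ((v i : ℕ) : ℤ) = ((v' i : ℕ) : ℤ) := by linarith
      exact Fin.ext (by exact_mod_cast h3)
  · intro c hc
    obtain ⟨v, hv, rfl⟩ := mem_image.1 hc
    refine ⟨fun i => ⟨?_, ?_⟩, ?_⟩
    · have hvi : ((v i : ℕ) : ℤ) ≤ U := by exact_mod_cast (v i).2.le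
      have hvi0 : (0 : ℤ) ≤ ((v i : ℕ) : ℤ) := by positivity
      have hv0 : ((v0 : ℕ) : ℤ) ≤ U := by exact_mod_cast v0.2.le
      have hv00 : (0 : ℤ) ≤ ((v0 : ℕ) : ℤ) := by positivity
      have hpow : (2 : ℤ) ^ (((i : ℕ) + 1) * d) ≤ P := by
        rw [hP]
        push_cast
        apply pow_le_pow_right₀ (by norm_num)
        apply Nat.mul_le_mul (by omega)
        rw [hd]
        exact sum_le_sum_of_subset (subset_univ _)
      have hpow1 : (1 : ℤ) ≤ 2 ^ (((i : ℕ) + 1) * d) := one_le_pow₀ (by norm_num)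
      have hPΛU : (Λ : ℤ) * (P * U) ≤ H := by
        have : Λ * (P * U) ≤ H := by
          calc Λ * (P * U) = P * Λ * U := by ring
            _ ≤ H := hUH
        exact_mod_cast this
      have hΛU' : (Λ : ℤ) * U ≤ H := by exact_mod_cast hΛU
      have hΛz : (0 : ℤ) ≤ Λ := by positivity
      have g1 : (2 : ℤ) ^ (((i : ℕ) + 1) * d) * ((v0 : ℕ) : ℤ) ≤ P * U :=
        mul_le_mul hpow hv0 hv00 (by positivity)
      have g2 : (0 : ℤ) ≤ (2 : ℤ) ^ (((i : ℕ) + 1) * d) * ((v0 : ℕ) : ℤ) := by positivity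
      rw [abs_le]
      constructor
      · have : -(H : ℤ) ≤ -(Λ * (P * U)) := by linarith
        refine this.trans ?_
        have h6 : -((P : ℤ) * U) ≤
            ((v i : ℕ) : ℤ) - 2 ^ (((i : ℕ) + 1) * d) * ((v0 : ℕ) : ℤ) := by linarith
        have := mul_le_mul_of_nonneg_left h6 hΛz
        linarith
      · refine le_trans ?_ hΛU'
        apply mul_le_mul_of_nonneg_left _ hΛz
        linarith
    · exact Dvd.dvd.mul_right (by exact_mod_cast hMΛ) _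
    · rw [hV, mem_filter] at hv
      refine le_trans ?_ (hv.2.trans ?_)
      · rw [hN']
        exact log_step (R := R + 2) hQpos (by
          have : 8 * Q * 1 ≤ 8 * Q * (P * Λ + 1) := Nat.mul_le_mul_left _ (by omega)
          omega) hlogN (by rw [← hN']; exact hN3)
      · rw [Nat.cast_le, hd]
        exact XX_le Λ hΛpos b N' N U π v0 v hbound

end Pool.Agent.V8H34.PC
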